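import Pool.Agent.SAV.Upper
import Pool.Agent.SAV.Constr

/-!
# Semi-arc `k`-visibility graphs: the conjectured edge maximum is wrong, exact value for
`n ≥ 5k + 5`
-/

namespace Pool.Agent.Results.MP_5402c6_co.LinearRangeExact

open Pool.Agent.SAV Finset

theorem sum_min (K n : ℕ) (h : K ≤ n) :
    2 * ∑ j ∈ Finset.range n, min K j + K * (K + 1) = 2 * (K * n) := by
  induction n, h using Nat.le_induction with
  | base =>
    have : ∑ j ∈ Finset.range K, min K j = ∑ j ∈ Finset.range K, j :=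
      Finset.sum_congr rfl fun j hj => min_eq_right (Finset.mem_range.1 hj).le
    rw [this]
    have h2 := Finset.sum_range_id_mul_two K
    rcases K with _ | K
    · simp
    · simp only [Nat.add_sub_cancel] at h2
      rw [mul_comm 2, h2]
      ring
  | succ m hm ih =>
    rw [Finset.sum_range_succ, min_eq_left hm]
    have : 2 * (K * (m + 1)) = 2 * (K * m) + 2 * K := by ring
    rw [this, ← ih]
    ring

theorem edge_le_choose {k n m : ℕ} (h : m ∈ edgeCounts k n) : m ≤ n.choose 2 := by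
  classical
  obtain ⟨G, -, rfl⟩ := h
  have h1 := SimpleGraph.card_edgeFinset_le_card_choose_two (G := G)
  rw [Fintype.card_fin] at h1
  rwa [← SimpleGraph.coe_edgeFinset, Set.ncard_coe_finset]

theorem exists_greatest {k n m : ℕ} (h : m ∈ edgeCounts k n) :
    ∃ e, IsGreatest (edgeCounts k n) e ∧ m ≤ e := by
  classical
  have hb : ∃ b, ∀ y ∈ edgeCounts k n, y ≤ b := ⟨n.choose 2, fun y hy => edge_le_choose hy⟩
  obtain ⟨b, hb⟩ := hb
  have hbdd : BddAbove (edgeCounts k n) := ⟨b, hb⟩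
  have hne : (edgeCounts k n).Nonempty := ⟨m, h⟩
  exact ⟨sSup (edgeCounts k n), ⟨Nat.sSup_mem hne hbdd, fun y hy => le_csSup hbdd hy⟩,
    le_csSup hbdd h⟩

/-- Let `e_k(n)` be the greatest number of edges of a semi-arc `k`-visibility graph on `n`
vertices.  Then `e_k(n) = (k+1)(2n - (k+2)/2)` for all `n ≥ 5k+5`; for all `n ≥ 3k+4` one has
`e_k(n) ≥ (k+1)(2n - (3k+6)/2) + (k+1)`; and `e_k(3k+4)` is the number of edges of the complete
graph. -/
theorem result :
    (∀ k n : ℕ, 5 * k + 5 ≤ n → ∃ e : ℕ, IsGreatest (edgeCounts k n) e ∧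
      (e : ℝ) = (k + 1) * (2 * n - (k + 2) / 2)) ∧
    (∀ k n : ℕ, 3 * k + 4 ≤ n → ∃ e : ℕ, IsGreatest (edgeCounts k n) e ∧
      ((k : ℝ) + 1) * (2 * n - (3 * k + 6) / 2) + (k + 1) ≤ e) ∧
    (∀ k : ℕ, IsGreatest (edgeCounts k (3 * k + 4)) ((3 * k + 4).choose 2)) := by
  refine ⟨?_, ?_, ?_⟩
  · intro k n hn
    have hv := valid_rank (n := n) (lg := lg1 (k + 1) n) (rk1_lt (K := k + 1) (n := n) (by omega))
    have hmem : (visGraph k (fam rad (ang (n := n) (lg1 (k + 1) n) (rk1 (k + 1))))).edgeSet.ncard ∈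
        edgeCounts k n := ⟨_, visGraph_isSemiArc k hv, rfl⟩
    have hlow := lower1 (k := k) (n := n) (by omega)
    have hup : ∀ m ∈ edgeCounts k n,
        m ≤ ∑ j ∈ Finset.range n, min (k + 1) j + (k + 1) * n := by
      rintro m ⟨G, hG, rfl⟩
      exact edge_bound hG
    have heq := le_antisymm (hup _ hmem) hlow
    refine ⟨_, ⟨hmem, fun m hm => ?_⟩, ?_⟩
    · rw [heq]; exact hup m hm
    · rw [heq]
      have h2 := sum_min (k + 1) n (by omega)
      have h3 : (2 : ℝ) * ((∑ j ∈ Finset.range n, min (k + 1) j : ℕ) : ℝ) +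
          ((k : ℝ) + 1) * ((k : ℝ) + 1 + 1) = 2 * (((k : ℝ) + 1) * n) := by exact_mod_cast h2
      push_cast at h3 ⊢
      linarith
  · intro k n hn
    have hv := valid_rank (n := n) (lg := lg2 (k + 1) n) (rk2_lt (K := k + 1) (n := n) (by omega))
    have hmem : (visGraph k (fam rad (ang (n := n) (lg2 (k + 1) n) (rk2 (k + 1))))).edgeSet.ncard ∈
        edgeCounts k n := ⟨_, visGraph_isSemiArc k hv, rfl⟩
    have hlow := lower2 (k := k) (n := n) (by omega)
    obtain ⟨e, he, hme⟩ := exists_greatest hmem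
    refine ⟨e, he, ?_⟩
    have h1 : (3 * (k + 1) + 1).choose 2 + 2 * ((n - (3 * (k + 1) + 1)) * (k + 1)) ≤ e :=
      hlow.trans hme
    obtain ⟨t, rfl⟩ : ∃ t, n = 3 * (k + 1) + 1 + t := ⟨n - (3 * (k + 1) + 1), by omega⟩
    rw [Nat.add_sub_cancel_left] at h1
    have h2 : (((3 * (k + 1) + 1).choose 2 : ℕ) : ℝ) = (3 * ((k : ℝ) + 1) + 1) *
        (3 * ((k : ℝ) + 1)) / 2 := by
      rw [Nat.cast_choose_two]
      push_cast
      ring
    have h3 : (((3 * (k + 1) + 1).choose 2 : ℕ) : ℝ) + 2 * ((t : ℝ) * ((k : ℝ) + 1)) ≤ e := by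
      exact_mod_cast h1
    rw [h2] at h3
    push_cast
    nlinarith
  · intro k
    have hv := valid_rank (n := 3 * k + 4) (lg := lg2 (k + 1) (3 * k + 4))
      (rk2_lt (K := k + 1) (n := 3 * k + 4) (by omega))
    have hmem : (visGraph k (fam rad (ang (n := 3 * k + 4) (lg2 (k + 1) (3 * k + 4))
        (rk2 (k + 1))))).edgeSet.ncard ∈ edgeCounts k (3 * k + 4) :=
      ⟨_, visGraph_isSemiArc k hv, rfl⟩
    have hlow := lower2 (k := k) (n := 3 * k + 4) (by omega)
    have h1 : (3 * k + 4).choose 2 ≤ (visGraph k (fam rad (ang (n := 3 * k + 4)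
        (lg2 (k + 1) (3 * k + 4)) (rk2 (k + 1))))).edgeSet.ncard := by
      have h2 : 3 * (k + 1) + 1 = 3 * k + 4 := by ring
      rw [h2] at hlow
      omega
    have h2 := le_antisymm (edge_le_choose hmem) h1
    rw [← h2]
    exact ⟨hmem, fun m hm => by rw [h2]; exact edge_le_choose hm⟩

end Pool.Agent.Results.MP_5402c6_co.LinearRangeExact
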